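import Pool.Agent.helper97.SN.PRX
import Pool.Agent.helper53.SC.HS1

/-!
Row sn:xHES of the project MP_d2d7b9_gt: the Moreau envelope of a smooth convex function is smooth,
with Hessian `N (1 + e N)⁻¹`.
-/

open scoped Pointwise ContDiff
open MeasureTheory Set Filter Topology

set_option linter.unusedVariables false

namespace Pool.Agent.helper69.SN

open Pool.Agent.helper83.SC

/-- The gradient in coordinates. -/
noncomputable def hesG {m : ℕ} (κ : E m → ℝ) (y : E m) : E m := ∑ i, pd i κ y • (e i : E m)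

theorem hesG_inner {m : ℕ} (κ : E m → ℝ) (y v : E m) :
    inner ℝ (hesG κ y) v = fderiv ℝ κ y v := by
  have h : v = ∑ i, v i • (e i : E m) := (HS1_sum v).symm
  have h1 : fderiv ℝ κ y v = ∑ i, v i * pd i κ y := by
    conv_lhs => rw [h]
    simp only [map_sum, map_smul, smul_eq_mul, pd]
  rw [h1, hesG, sum_inner]
  refine Finset.sum_congr rfl fun i _ => ?_
  rw [real_inner_smul_left, e, EuclideanSpace.inner_single_left]
  simp [mul_comm]

theorem hesG_smooth {m : ℕ} {κ : E m → ℝ} (hs : ContDiff ℝ ∞ κ) : ContDiff ℝ ∞ (hesG κ) := by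
  unfold hesG
  refine ContDiff.sum fun i _ => ?_
  exact (HS1_smooth hs i).smul contDiff_const

/-- The derivative of the gradient. -/
theorem hesG_deriv {m : ℕ} {κ : E m → ℝ} (hs : ContDiff ℝ ∞ κ) (y v w : E m) :
    inner ℝ (fderiv ℝ (hesG κ) y v) w = fderiv ℝ (fderiv ℝ κ) y v w := by
  have h1 : DifferentiableAt ℝ (hesG κ) y := (hesG_smooth hs).differentiable (by simp) y
  have h2 : DifferentiableAt ℝ (fderiv ℝ κ) y :=
    (hs.fderiv_right (m := ∞) (by simp)).differentiable (by simp) y
  have h3 : HasFDerivAt (fun y => inner ℝ (hesG κ y) w)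
      ((fderivInnerCLM ℝ (hesG κ y, w)).comp ((fderiv ℝ (hesG κ) y).prod 0)) y :=
    h1.hasFDerivAt.inner ℝ (hasFDerivAt_const w y)
  have h4 : HasFDerivAt (fun y => fderiv ℝ κ y w) ((fderiv ℝ (fderiv ℝ κ) y).flip w) y := by
    have := h2.hasFDerivAt.clm_apply (hasFDerivAt_const w y)
    simpa using this
  have h5 : (fun y => inner ℝ (hesG κ y) w) = fun y => fderiv ℝ κ y w := by
    funext y; exact hesG_inner κ y w
  rw [h5] at h3
  have h6 := h3.unique h4
  have h7 := congrArg (fun L : E m →L[ℝ] ℝ => L v) h6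
  simpa using h7

theorem xHES_of : xHES_stmt := by
  intro m κ η P0 hκ hη hP0
  obtain ⟨hs, hc⟩ := hκ
  obtain ⟨P, hP, hval, hlip, -, hgr, -, -, hvi⟩ := xPRX κ η hc hη
  -- the map
  set F : E m → E m := fun y => y + η • hesG κ y with hF
  have hFs : ContDiff ℝ ∞ F := contDiff_id.add ((hesG_smooth hs).const_smul η)
  have hFP : ∀ Q : E m → E m, IsPrx κ η Q → ∀ x, F (Q x) = x := by
    intro Q hQ x
    have h1 := PRX_vi hc hη hQ x
    have h2 : IsLocalMin (fun z => κ z - inner ℝ (η⁻¹ • (x - Q x)) z) (Q x) := by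
      refine Eventually.of_forall fun z => ?_
      have h3 := h1 z
      rw [inner_sub_right] at h3
      simp only
      linarith
    have h3 : HasFDerivAt (fun z => κ z - inner ℝ (η⁻¹ • (x - Q x)) z)
        (fderiv ℝ κ (Q x) - innerSL ℝ (η⁻¹ • (x - Q x))) (Q x) :=
      (hs.differentiable (by simp) (Q x)).hasFDerivAt.sub
        (innerSL ℝ (η⁻¹ • (x - Q x))).hasFDerivAt
    have h4 := h2.hasFDerivAt_eq_zero h3
    have h5 : hesG κ (Q x) = η⁻¹ • (x - Q x) := by
      refine ext_inner_right ℝ fun v => ?_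
      rw [hesG_inner]
      have h6 := congrArg (fun L : E m →L[ℝ] ℝ => L v) h4
      simp only [FunLike.coe_sub, Pi.sub_apply, innerSL_apply_apply,
        FunLike.coe_zero, Pi.zero_apply] at h6
      linarith
    simp only [hF]
    rw [h5, smul_smul, mul_inv_cancel₀ hη.ne', one_smul]
    abel
  -- the derivative of the map
  have hFd : ∀ y v w : E m, inner ℝ (fderiv ℝ F y v) w =
      inner ℝ v w + η * fderiv ℝ (fderiv ℝ κ) y v w := by
    intro y v w
    have h1 : HasFDerivAt F (ContinuousLinearMap.id ℝ (E m) + η • fderiv ℝ (hesG κ) y) y :=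
      (hasFDerivAt_id y).add
        (((hesG_smooth hs).differentiable (by simp) y).hasFDerivAt.const_smul η)
    rw [h1.fderiv]
    simp only [FunLike.coe_add, Pi.add_apply, FunLike.coe_smul, Pi.smul_apply,
      ContinuousLinearMap.id_apply, inner_add_left, real_inner_smul_left]
    rw [hesG_deriv hs]
  have hpos : ∀ y v : E m, v ≠ 0 → 0 < inner ℝ (fderiv ℝ F y v) v := by
    intro y v hv
    rw [hFd, real_inner_self_eq_norm_sq]
    have h1 := HS1_nonneg hs hc y v
    have h2 : 0 < ‖v‖ := norm_pos_iff.2 hv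
    positivity
  have hinj : Function.Injective F := by
    intro y z hyz
    by_contra hne
    have hv : z - y ≠ 0 := sub_ne_zero.2 (Ne.symm hne)
    have hd : ∀ t : ℝ, HasDerivAt (fun t : ℝ => inner ℝ (F (y + t • (z - y))) (z - y))
        (inner ℝ (fderiv ℝ F (y + t • (z - y)) (z - y)) (z - y)) t := by
      intro t
      have h1 : HasFDerivAt F (fderiv ℝ F (y + t • (z - y))) (y + t • (z - y)) :=
        (hFs.differentiable (by simp) _).hasFDerivAt
      have h2 : HasDerivAt (fun t : ℝ => y + t • (z - y)) (z - y) t := by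
        simpa using ((hasDerivAt_id t).smul_const (z - y)).const_add y
      have h3 := (h1.comp_hasDerivAt t h2).inner ℝ (hasDerivAt_const t (z - y))
      simpa using h3
    have hm : StrictMono (fun t : ℝ => inner ℝ (F (y + t • (z - y))) (z - y)) := by
      refine strictMono_of_deriv_pos fun t => ?_
      rw [(hd t).deriv]
      exact hpos _ _ hv
    have h1 := hm one_pos
    simp only [zero_smul, add_zero, one_smul, add_sub_cancel] at h1
    rw [hyz] at h1
    exact lt_irrefl _ h1
  have hPP : P0 = P := by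
    funext x
    exact hinj ((hFP P0 hP0 x).trans (hFP P hP x).symm)
  subst hPP
  have hPc : Continuous P0 := by
    have : LipschitzWith 1 P0 := LipschitzWith.of_dist_le_mul fun x y => by
      rw [dist_eq_norm, dist_eq_norm]; simpa using hlip x y
    exact this.continuous
  have hFinj : ∀ y : E m, Function.Injective (fderiv ℝ F y) := by
    intro y
    rw [injective_iff_map_eq_zero]
    intro v hv
    by_contra h
    have := hpos y v h
    rw [hv, inner_zero_left] at this
    exact lt_irrefl _ this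
  let Fe : E m → E m ≃L[ℝ] E m := fun y =>
    (LinearEquiv.ofInjectiveEndo (fderiv ℝ F y : E m →ₗ[ℝ] E m) (hFinj y)).toContinuousLinearEquiv
  have hFe : ∀ y, HasFDerivAt F (Fe y : E m →L[ℝ] E m) y := by
    intro y
    have h1 : HasFDerivAt F (fderiv ℝ F y) y := (hFs.differentiable (by simp) _).hasFDerivAt
    have h2 : (Fe y : E m →L[ℝ] E m) = fderiv ℝ F y := by
      ext v : 1
      rfl
    rw [h2]
    exact h1
  let Fh : E m ≃ₜ E m :=
    { toFun := F
      invFun := P0
      left_inv := fun y => hinj (hFP P0 hP0 (F y))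
      right_inv := fun x => hFP P0 hP0 x
      continuous_toFun := hFs.continuous
      continuous_invFun := hPc }
  have hPs : ContDiff ℝ ∞ P0 := Fh.contDiff_symm (n := ∞) (f₀' := Fe) hFe hFs
  have hms : ContDiff ℝ ∞ (mor κ η) := by
    have h1 : mor κ η = fun x => κ (P0 x) + ‖x - P0 x‖ ^ 2 / (2 * η) := by
      funext x; exact hval x
    rw [h1]
    exact (hs.comp hPs).add (((contDiff_id.sub hPs).norm_sq ℝ).div_const _)
  refine ⟨hms, fun x => ?_⟩
  set N := hess κ (P0 x) with hN
  set M : Mat m := Matrix.of fun i j => (fderiv ℝ P0 x (e i)) j with hM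
  have hPd : HasFDerivAt P0 (fderiv ℝ P0 x) x := (hPs.differentiable (by simp) _).hasFDerivAt
  -- M (1 + η N) = 1
  have hMN : M * (1 + η • N) = 1 := by
    have h1 : HasFDerivAt (fun x => F (P0 x)) ((fderiv ℝ F (P0 x)).comp (fderiv ℝ P0 x)) x :=
      ((hFs.differentiable (by simp) (P0 x)).hasFDerivAt).comp x hPd
    have h2 : (fun x => F (P0 x)) = id := by
      funext x; exact hFP P0 hP0 x
    rw [h2] at h1
    have h3 := h1.unique (hasFDerivAt_id x)
    ext i j
    have h4 := congrArg (fun L : E m →L[ℝ] E m => inner ℝ (L (e i)) (e j : E m)) h3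
    simp only [ContinuousLinearMap.comp_apply, ContinuousLinearMap.id_apply] at h4
    rw [hFd] at h4
    have h5 : ∀ v : E m, inner ℝ v (e j : E m) = v j := by
      intro v
      rw [e, EuclideanSpace.inner_single_right]
      simp
    have h6 : fderiv ℝ (fderiv ℝ κ) (P0 x) (fderiv ℝ P0 x (e i)) (e j) = ∑ k, M i k * N k j := by
      have h7 : fderiv ℝ P0 x (e i) = ∑ k, (fderiv ℝ P0 x (e i)) k • (e k : E m) :=
        (HS1_sum _).symm
      conv_lhs => rw [h7]
      simp only [map_sum, map_smul, FunLike.coe_sum, FunLike.coe_smul, Finset.sum_apply,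
        Pi.smul_apply, smul_eq_mul]
      refine Finset.sum_congr rfl fun k _ => ?_
      rw [hM, hN]
      simp only [hess, Matrix.of_apply]
      rw [HS1_dd hs]
    rw [h5, h5, h6] at h4
    have h8 : (e i : E m) j = (1 : Mat m) i j := by
      rw [Matrix.one_apply, e]
      simp [eq_comm]
    rw [h8] at h4
    rw [mul_add, mul_one, Matrix.mul_smul, Matrix.add_apply, Matrix.smul_apply, Matrix.mul_apply,
      smul_eq_mul, ← h4]
    simp [hM]
  have hNM : (1 + η • N) * M = 1 := mul_eq_one_comm.1 hMN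
  rw [Matrix.inv_eq_left_inv hMN]
  have h9 : N * M = η⁻¹ • (1 - M) := by
    have h10 : η • (N * M) = 1 - M := by
      rw [← hNM, add_mul, one_mul, Matrix.smul_mul]
      abel
    rw [← h10, smul_smul, inv_mul_cancel₀ hη.ne', one_smul]
  rw [h9]
  ext i j
  have h11 : pd j (mor κ η) = fun y => η⁻¹ * (y j - P0 y j) := by
    funext y
    unfold pd
    rw [(hgr y).hasFDerivAt.fderiv, InnerProductSpace.toDual_apply_apply, real_inner_smul_left, e,
      EuclideanSpace.inner_single_right]
    simp
  have h12 : HasFDerivAt (fun y : E m => η⁻¹ * (y j - P0 y j))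
      (η⁻¹ • ((EuclideanSpace.proj j : E m →L[ℝ] ℝ) -
        (EuclideanSpace.proj j : E m →L[ℝ] ℝ).comp (fderiv ℝ P0 x))) x := by
    have h13 : HasFDerivAt (fun y : E m => y j) (EuclideanSpace.proj j : E m →L[ℝ] ℝ) x :=
      (EuclideanSpace.proj j : E m →L[ℝ] ℝ).hasFDerivAt
    have h14 : HasFDerivAt (fun y : E m => P0 y j)
        ((EuclideanSpace.proj j : E m →L[ℝ] ℝ).comp (fderiv ℝ P0 x)) x :=
      ((EuclideanSpace.proj j : E m →L[ℝ] ℝ).hasFDerivAt).comp x hPd
    exact (h13.sub h14).const_mul η⁻¹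
  have h15 : hess (mor κ η) x i j = η⁻¹ * ((e i : E m) j - (fderiv ℝ P0 x (e i)) j) := by
    simp only [hess, Matrix.of_apply]
    rw [h11]
    unfold pd
    rw [h12.fderiv]
    simp
  rw [h15, Matrix.smul_apply, Matrix.sub_apply, smul_eq_mul]
  congr 2
  · rw [Matrix.one_apply, e]
    simp [eq_comm]

end Pool.Agent.helper69.SN
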